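import Pool.Agent.H73.EQD.Stmts

open Real Set Topology

namespace EQD

namespace D2

theorem st_lt {x y : ℝ} (h : x < y) (hy : 0 < y) (hx : x < 1) : ST x < ST y := by
  rcases le_or_gt x 0 with hx0 | hx0
  · rw [show ST x = 0 from smoothTransition.zero_of_nonpos hx0]
    exact smoothTransition.pos_of_pos hy
  rcases le_or_gt 1 y with hy1 | hy1
  · rw [show ST y = 1 from smoothTransition.one_of_one_le hy1]
    exact smoothTransition.lt_one_of_lt_one hx
  have e : ∀ z : ℝ, 0 < z → expNegInvGlue z = exp (-z⁻¹) := fun z hz => by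
    simp [expNegInvGlue, hz.not_ge]
  have h1 : expNegInvGlue x < expNegInvGlue y := by
    rw [e x hx0, e y hy]
    apply exp_lt_exp.2
    exact neg_lt_neg (inv_strictAnti₀ hx0 h)
  have h2 : expNegInvGlue (1 - y) < expNegInvGlue (1 - x) := by
    rw [e (1 - x) (by linarith), e (1 - y) (by linarith)]
    apply exp_lt_exp.2
    exact neg_lt_neg (inv_strictAnti₀ (by linarith) (by linarith))
  have p1 := expNegInvGlue.pos_of_pos hx0
  have p2 := expNegInvGlue.pos_of_pos (show (0:ℝ) < 1 - y by linarith)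
  show expNegInvGlue x / (expNegInvGlue x + expNegInvGlue (1 - x)) <
    expNegInvGlue y / (expNegInvGlue y + expNegInvGlue (1 - y))
  rw [div_lt_div_iff₀ (smoothTransition.pos_denom x) (smoothTransition.pos_denom y)]
  nlinarith [mul_lt_mul'' h1 h2 p1.le p2.le]

theorem st_half : ST (1 / 2) = 1 / 2 := by
  show expNegInvGlue (1 / 2) / (expNegInvGlue (1 / 2) + expNegInvGlue (1 - 1 / 2)) = 1 / 2
  have p1 := expNegInvGlue.pos_of_pos (show (0:ℝ) < 1 / 2 by norm_num)
  rw [show (1 : ℝ) - 1 / 2 = 1 / 2 by norm_num]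
  field_simp
  norm_num

theorem st_zero {x : ℝ} (h : x ≤ 0) : ST x = 0 := smoothTransition.zero_of_nonpos h
theorem st_one {x : ℝ} (h : 1 ≤ x) : ST x = 1 := smoothTransition.one_of_one_le h
theorem st_nonneg (x : ℝ) : 0 ≤ ST x := smoothTransition.nonneg x
theorem st_le_one (x : ℝ) : ST x ≤ 1 := smoothTransition.le_one x
theorem st_pos {x : ℝ} (h : 0 < x) : 0 < ST x := smoothTransition.pos_of_pos h

/-- `fA` is strictly decreasing on `[1, 9]`. -/
theorem fA_anti {s t : ℝ} (h : s < t) (ht : 1 < t) (hs : s < 9) : fA t < fA s := by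
  unfold fA
  have hpi := pi_pos
  have m1 : ST ((4 - t) / 3) ≤ ST ((4 - s) / 3) := smoothTransition.monotone (by linarith)
  have m2 : ST ((9 - t) / 5) ≤ ST ((9 - s) / 5) := smoothTransition.monotone (by linarith)
  have : ST ((4 - t) / 3) + ST ((9 - t) / 5) < ST ((4 - s) / 3) + ST ((9 - s) / 5) := by
    rcases lt_or_ge s 4 with h4 | h4
    · have := st_lt (show (4 - t) / 3 < (4 - s) / 3 by linarith) (by linarith) (by linarith)
      linarith
    · have := st_lt (show (9 - t) / 5 < (9 - s) / 5 by linarith) (by linarith) (by linarith)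
      linarith
  exact mul_lt_mul_of_pos_left this hpi

theorem fA_inj {s t : ℝ} (h : fA s = fA t) (hs : s < 9) (ht : t < 9) :
    s = t ∨ (s ≤ 1 ∧ t ≤ 1) := by
  rcases lt_trichotomy s t with hlt | heq | hgt
  · rcases le_or_gt t 1 with h1 | h1
    · exact Or.inr ⟨by linarith, h1⟩
    · exact absurd h (fA_anti hlt h1 hs).ne'
  · exact Or.inl heq
  · rcases le_or_gt s 1 with h1 | h1
    · exact Or.inr ⟨h1, by linarith⟩
    · exact absurd h (fA_anti hgt h1 ht).ne

theorem fA_pos {t : ℝ} (ht : t < 9) : 0 < fA t := by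
  unfold fA
  have := st_pos (show 0 < (9 - t) / 5 by linarith)
  have := st_nonneg ((4 - t) / 3)
  have := pi_pos
  positivity

theorem fA_le (t : ℝ) : fA t ≤ 2 * π := by
  unfold fA
  have := st_le_one ((9 - t) / 5)
  have := st_le_one ((4 - t) / 3)
  have := pi_pos
  nlinarith

theorem fA_half : fA 6.5 = π / 2 := by
  unfold fA
  rw [st_zero (by norm_num), show ((9 : ℝ) - 6.5) / 5 = 1 / 2 by norm_num, st_half]
  ring

theorem fA_threehalf : fA 2.5 = 3 * π / 2 := by
  unfold fA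
  rw [st_one (x := (9 - 2.5) / 5) (by norm_num), show ((4 : ℝ) - 2.5) / 3 = 1 / 2 by norm_num, st_half]
  ring

theorem fN_pos (t : ℝ) : 1 / 2 ≤ fN t := by
  unfold fN
  have h1 := st_nonneg (t - 1)
  have h2 := st_nonneg (4 - t)
  have h3 := st_nonneg (t - 4)
  have h4 := st_nonneg (9 - t)
  have h5 := st_le_one (t - 4)
  have h6 := st_le_one (9 - t)
  have : ST (t - 4) * ST (9 - t) ≤ 1 * 1 := mul_le_mul h5 h6 h4 (by norm_num)
  have := mul_nonneg h1 h2
  linarith

theorem fN_le (t : ℝ) : fN t ≤ 2 := by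
  unfold fN
  have h1 := st_nonneg (t - 1)
  have h2 := st_nonneg (4 - t)
  have h3 := st_nonneg (t - 4)
  have h4 := st_nonneg (9 - t)
  have h5 := st_le_one (t - 1)
  have h6 := st_le_one (4 - t)
  have : ST (t - 1) * ST (4 - t) ≤ 1 * 1 := mul_le_mul h5 h6 h2 (by norm_num)
  have := mul_nonneg h3 h4
  linarith

theorem fN_one {t : ℝ} (h : t ≤ 1) : fN t = 1 := by
  unfold fN
  rw [st_zero (x := t - 1) (by linarith), st_zero (x := t - 4) (by linarith)]
  ring

theorem fN_nine {t : ℝ} (h : 9 ≤ t) : fN t = 1 := by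
  unfold fN
  rw [st_zero (x := 4 - t) (by linarith), st_zero (x := 9 - t) (by linarith)]
  ring

theorem fN_a : fN 6.5 = 1 / 2 := by
  unfold fN
  rw [st_zero (x := 4 - 6.5) (by norm_num), st_one (x := 6.5 - 4) (by norm_num), st_one (x := 9 - 6.5) (by norm_num)]
  ring

theorem fN_b : fN 2.5 = 2 := by
  unfold fN
  rw [st_zero (x := 2.5 - 4) (by norm_num), st_one (x := 2.5 - 1) (by norm_num), st_one (x := 4 - 2.5) (by norm_num)]
  ring

theorem fA_nine {t : ℝ} (h : 9 ≤ t) : fA t = 0 := by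
  unfold fA
  rw [st_zero (x := (4 - t) / 3) (by linarith), st_zero (x := (9 - t) / 5) (by linarith)]
  ring

theorem fc_nonneg (x : ℝ) : 0 ≤ fc x := by
  unfold fc
  have := st_nonneg (x - 1 / 4)
  have := st_nonneg (x - π - 1 / 4)
  linarith

theorem fVn_pos (c : ℝ) : 0 < fVn c := by
  unfold fVn fV1 fV2
  apply sqrt_pos.2
  nlinarith [sq_nonneg (1 - 3 * c / 4), sq_nonneg (c / 4), sq_nonneg (c - 1)]

theorem fVn_sq (c : ℝ) : fVn c ^ 2 = fV1 c ^ 2 + fV2 c ^ 2 := by
  unfold fVn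
  rw [sq_sqrt]
  positivity

/-! ### the finger -/

theorem E4_ext {p q : E4} (h0 : p 0 = q 0) (h1 : p 1 = q 1) (h2 : p 2 = q 2) (h3 : p 3 = q 3) :
    p = q := by
  ext i
  fin_cases i
  · exact h0
  · exact h1
  · exact h2
  · exact h3

theorem ft_lt {a b : ℝ} (h : ft a b < 9) :
    |a - 1 / 4| < 3 / 64 ∧ |b - 1 / 2| < 3 / 64 := by
  unfold ft at h
  constructor
  · apply abs_lt_of_sq_lt_sq _ (by norm_num)
    nlinarith [sq_nonneg (b - 1 / 2)]
  · apply abs_lt_of_sq_lt_sq _ (by norm_num)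
    nlinarith [sq_nonneg (a - 1 / 4)]

theorem eP_nine {a b : ℝ} (h : 9 ≤ ft a b) : eP a b = e0 a b := by
  have h1 := fA_nine h
  have h2 := fN_nine h
  have h3 : fc 0 = 0 := by
    unfold fc
    rw [st_zero (by norm_num), st_zero (by linarith [pi_pos])]
    ring
  have h4 : fVn 0 = 1 := by unfold fVn fV1 fV2; norm_num
  have h5 : fV1 0 = 1 := by unfold fV1; norm_num
  have h6 : fV2 0 = 0 := by unfold fV2; norm_num
  apply E4_ext <;> simp [eP, e0, h1, h2, h3, h4, h5, h6]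

/-- radius of the finger point -/
noncomputable def fr (a b : ℝ) : ℝ := 1 / 4 + fN (ft a b) * (a - 1 / 4)
/-- last coordinate of the finger point -/
noncomputable def fs (a b : ℝ) : ℝ := 1 / 2 + fN (ft a b) * (b - 1 / 2)

theorem fr_bd {a b : ℝ} (h : ft a b < 9) : 5 / 32 < fr a b ∧ fr a b < 11 / 32 := by
  obtain ⟨h1, -⟩ := ft_lt h
  rw [abs_lt] at h1
  have h3 := fN_pos (ft a b)
  have h4 := fN_le (ft a b)
  unfold fr
  constructor <;> nlinarith

theorem fs_bd {a b : ℝ} (h : ft a b < 9) : 13 / 32 < fs a b ∧ fs a b < 19 / 32 := by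
  obtain ⟨-, h1⟩ := ft_lt h
  rw [abs_lt] at h1
  have h3 := fN_pos (ft a b)
  have h4 := fN_le (ft a b)
  unfold fs
  constructor <;> nlinarith

theorem eP_0 (a b : ℝ) : eP a b 0 = -(fr a b * sin (fA (ft a b))) := by
  simp [eP, fr]
theorem eP_1 (a b : ℝ) : eP a b 1 = fr a b * cos (fA (ft a b)) *
    (fV1 (fc (fA (ft a b))) / fVn (fc (fA (ft a b)))) := by
  simp [eP, fr]
theorem eP_2 (a b : ℝ) : eP a b 2 = fr a b * cos (fA (ft a b)) *
    (fV2 (fc (fA (ft a b))) / fVn (fc (fA (ft a b)))) := by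
  simp [eP, fr]
theorem eP_3 (a b : ℝ) : eP a b 3 = fs a b := by
  simp [eP, fs]

theorem dir_sq (c : ℝ) : (fV1 c / fVn c) ^ 2 + (fV2 c / fVn c) ^ 2 = 1 := by
  have h := fVn_pos c
  have h2 := fVn_sq c
  field_simp
  linarith

theorem eP_rad (a b : ℝ) : eP a b 0 ^ 2 + eP a b 1 ^ 2 + eP a b 2 ^ 2 = fr a b ^ 2 := by
  rw [eP_0, eP_1, eP_2]
  have h := dir_sq (fc (fA (ft a b)))
  have h2 := sin_sq_add_cos_sq (fA (ft a b))
  have : fr a b ^ 2 = fr a b ^ 2 * (sin (fA (ft a b)) ^ 2 + cos (fA (ft a b)) ^ 2 *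
    ((fV1 (fc (fA (ft a b))) / fVn (fc (fA (ft a b)))) ^ 2 +
      (fV2 (fc (fA (ft a b))) / fVn (fc (fA (ft a b)))) ^ 2)) := by
    rw [h, mul_one, h2, mul_one]
  rw [this]
  ring

/-- if radii and last coordinates agree then the positions relative to the centre are
positively proportional with known factor -/
theorem plane_inj {a b a' b' : ℝ} (hr : fr a b = fr a' b') (hs : fs a b = fs a' b')
    (h : fN (ft a b) = fN (ft a' b')) : a = a' ∧ b = b' := by
  have h0 := fN_pos (ft a b)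
  unfold fr at hr
  unfold fs at hs
  rw [← h] at hr hs
  constructor
  · have : fN (ft a b) * (a - a') = 0 := by linarith
    rcases mul_eq_zero.1 this with h | h <;> linarith
  · have : fN (ft a b) * (b - b') = 0 := by linarith
    rcases mul_eq_zero.1 this with h | h <;> linarith

theorem plane_sq {a b a' b' : ℝ} (hr : fr a b = fr a' b') (hs : fs a b = fs a' b') :
    fN (ft a b) ^ 2 * ft a b = fN (ft a' b') ^ 2 * ft a' b' := by
  have e : ∀ a b, fN (ft a b) ^ 2 * ft a b = 4096 * ((fr a b - 1 / 4) ^ 2 + (fs a b - 1 / 2) ^ 2) := by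
    intro a b
    conv_lhs => rw [show fN (ft a b) ^ 2 * ft a b = fN (ft a b) ^ 2 * (4096 * ((a - 1 / 4) ^ 2 + (b - 1 / 2) ^ 2)) from rfl]
    unfold fr fs
    ring
  rw [e, e, hr, hs]

/-- the bending direction determines the parameter -/
theorem dir_pos {c c' : ℝ} (hc : 0 ≤ c) (hc' : 0 ≤ c')
    (h1 : fV1 c / fVn c = -(fV1 c' / fVn c')) (h2 : fV2 c / fVn c = -(fV2 c' / fVn c')) :
    False := by
  have p := fVn_pos c
  have p' := fVn_pos c'
  have e : 0 ≤ fV2 c / fVn c := div_nonneg (by unfold fV2; linarith) p.le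
  have e' : 0 ≤ fV2 c' / fVn c' := div_nonneg (by unfold fV2; linarith) p'.le
  have z : fV2 c / fVn c = 0 := by linarith
  have z' : fV2 c' / fVn c' = 0 := by linarith
  have w : c = 0 := by
    rcases div_eq_zero_iff.1 z with h | h
    · unfold fV2 at h; linarith
    · exact absurd h p.ne'
  have w' : c' = 0 := by
    rcases div_eq_zero_iff.1 z' with h | h
    · unfold fV2 at h; linarith
    · exact absurd h p'.ne'
  subst w w'
  have : 0 < fV1 0 / fVn 0 := div_pos (by unfold fV1; norm_num) p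
  linarith

theorem dir_inj {c c' : ℝ}
    (h1 : fV1 c / fVn c = fV1 c' / fVn c') (h2 : fV2 c / fVn c = fV2 c' / fVn c') :
    c = c' := by
  have p := fVn_pos c
  have p' := fVn_pos c'
  rw [div_eq_div_iff p.ne' p'.ne'] at h1 h2
  have : (fV1 c * fV2 c' - fV2 c * fV1 c') * fVn c * fVn c' = 0 := by
    have : fV1 c * fVn c' * (fV2 c' * fVn c) = fV1 c' * fVn c * (fV2 c * fVn c') := by
      rw [h1, ← h2]
    linarith
  have : fV1 c * fV2 c' - fV2 c * fV1 c' = 0 := by
    rcases mul_eq_zero.1 this with h | h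
    · rcases mul_eq_zero.1 h with h | h
      · exact h
      · exact absurd h p.ne'
    · exact absurd h p'.ne'
  unfold fV1 fV2 at this
  linarith

theorem fr_eq {a b a' b' : ℝ} (h : ft a b < 9) (h' : ft a' b' < 9)
    (e : fr a b ^ 2 = fr a' b' ^ 2) : fr a b = fr a' b' := by
  have h1 := fr_bd h
  have h2 := fr_bd h'
  nlinarith

theorem ang_eq {x y : ℝ} (hx : 0 < x) (hx' : x ≤ 2 * π) (hy : 0 < y) (hy' : y ≤ 2 * π)
    (hs : sin x = sin y) (hc : cos x = cos y) : x = y := by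
  have h : cos (x - y) = 1 := by
    rw [cos_sub, hs, hc]
    nlinarith [sin_sq_add_cos_sq y]
  have := (cos_eq_one_iff_of_lt_of_lt (by linarith) (by linarith)).1 h
  linarith

theorem ang_opp {x y : ℝ} (hx : 0 < x) (hx' : x ≤ 2 * π) (hy : 0 < y) (hy' : y ≤ 2 * π)
    (hs : sin x = -sin y) (hc : cos x = -cos y) : x = y + π ∨ y = x + π := by
  have h : cos (x - y) = -1 := by
    rw [cos_sub, hs, hc]
    nlinarith [sin_sq_add_cos_sq y]
  rcases lt_or_ge x y with hlt | hge
  · right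
    have h2 : cos (x - y + π) = 1 := by rw [cos_add_pi, h]; norm_num
    have := (cos_eq_one_iff_of_lt_of_lt (by linarith [pi_pos]) (by linarith [pi_pos])).1 h2
    linarith
  · left
    have h2 : cos (x - y - π) = 1 := by rw [cos_sub_pi, h]; norm_num
    have := (cos_eq_one_iff_of_lt_of_lt (by linarith [pi_pos]) (by linarith [pi_pos])).1 h2
    linarith

theorem fc_shift {x : ℝ} (hx : x ≤ π) (hx0 : 0 < x) : fc (x + π) = fc x + 1 := by
  unfold fc
  rw [st_one (x := x + π - 1 / 4) (by linarith [pi_gt_three]),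
    st_zero (x := x - π - 1 / 4) (by linarith), show x + π - π - 1 / 4 = x - 1 / 4 by ring]
  ring

theorem K1 {a b a' b' : ℝ} (h : ft a b < 9) (h' : ft a' b' < 9) (e : eP a b = eP a' b') :
    a = a' ∧ b = b' := by
  have r0 := eP_rad a b
  have r0' := eP_rad a' b'
  rw [e] at r0
  have hr : fr a b = fr a' b' := fr_eq h h' (by rw [← r0, ← r0'])
  have hs : fs a b = fs a' b' := by rw [← eP_3, ← eP_3, e]
  have hrp := (fr_bd h').1
  have q0 : eP a b 0 = eP a' b' 0 := by rw [e]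
  have q1 : eP a b 1 = eP a' b' 1 := by rw [e]
  have q2 : eP a b 2 = eP a' b' 2 := by rw [e]
  rw [eP_0, eP_0, hr, neg_inj] at q0
  rw [eP_1, eP_1, hr, mul_assoc, mul_assoc] at q1
  rw [eP_2, eP_2, hr, mul_assoc, mul_assoc] at q2
  have hne : fr a' b' ≠ 0 := by linarith
  replace q0 := mul_left_cancel₀ hne q0
  replace q1 := mul_left_cancel₀ hne q1
  replace q2 := mul_left_cancel₀ hne q2
  have p1 := fA_pos h
  have p1' := fA_pos h'
  have p2 := fA_le (ft a b)
  have p2' := fA_le (ft a' b')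
  have hsq : cos (fA (ft a b)) ^ 2 = cos (fA (ft a' b')) ^ 2 := by
    have := sin_sq_add_cos_sq (fA (ft a b))
    have := sin_sq_add_cos_sq (fA (ft a' b'))
    rw [q0] at *
    linarith
  have hchi : fA (ft a b) = fA (ft a' b') := by
    rcases eq_or_eq_neg_of_sq_eq_sq _ _ hsq with hc | hc
    · exact ang_eq p1 p2 p1' p2' q0 hc
    · rcases eq_or_ne (cos (fA (ft a' b'))) 0 with hz | hz
      · rw [hz, neg_zero] at hc
        exact ang_eq p1 p2 p1' p2' q0 (by rw [hz, hc])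
      · exfalso
        rw [hc, neg_mul, ← mul_neg] at q1 q2
        replace q1 := mul_left_cancel₀ hz q1
        replace q2 := mul_left_cancel₀ hz q2
        exact dir_pos (fc_nonneg _) (fc_nonneg _) (neg_eq_iff_eq_neg.1 q1) (neg_eq_iff_eq_neg.1 q2)
  have hN : fN (ft a b) = fN (ft a' b') := by
    rcases fA_inj hchi h h' with h1 | ⟨h1, h2⟩
    · rw [h1]
    · rw [fN_one h1, fN_one h2]
  exact plane_inj hr hs hN

theorem tau_of_half {t : ℝ} (ht : t < 9) (h : fA t = π / 2) : t = 6.5 := by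
  rw [← fA_half] at h
  rcases fA_inj h ht (by norm_num) with h1 | ⟨_, h2⟩
  · exact h1
  · norm_num at h2

theorem tau_of_threehalf {t : ℝ} (ht : t < 9) (h : fA t = 3 * π / 2) : t = 2.5 := by
  rw [← fA_threehalf] at h
  rcases fA_inj h ht (by norm_num) with h1 | ⟨_, h2⟩
  · exact h1
  · norm_num at h2

theorem K2aux {a b a' b' : ℝ} (h : ft a b < 9) (h' : ft a' b' < 9)
    (hr : fr a b = fr a' b') (hs : fs a b = fs a' b')
    (s1 : sin (fA (ft a b)) = 1) (s2 : sin (fA (ft a' b')) = -1) : False := by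
  have p1 := fA_pos h
  have p1' := fA_pos h'
  have p2 := fA_le (ft a b)
  have p2' := fA_le (ft a' b')
  have c1 : cos (fA (ft a b)) = 0 := by
    have := sin_sq_add_cos_sq (fA (ft a b))
    rw [s1] at this
    exact pow_eq_zero_iff (two_ne_zero) |>.1 (by linarith)
  have c2 : cos (fA (ft a' b')) = 0 := by
    have := sin_sq_add_cos_sq (fA (ft a' b'))
    rw [s2] at this
    exact pow_eq_zero_iff (two_ne_zero) |>.1 (by linarith)
  have e1 : fA (ft a b) = π / 2 :=
    ang_eq p1 p2 (by linarith [pi_pos]) (by linarith [pi_pos]) (by rw [s1, sin_pi_div_two])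
      (by rw [c1, cos_pi_div_two])
  have e2 : fA (ft a' b') = 3 * π / 2 := by
    have h3 : sin (3 * π / 2) = -1 := by
      rw [show 3 * π / 2 = π / 2 + π by ring, sin_add_pi, sin_pi_div_two]
    have h4 : cos (3 * π / 2) = 0 := by
      rw [show 3 * π / 2 = π / 2 + π by ring, cos_add_pi, cos_pi_div_two, neg_zero]
    exact ang_eq p1' p2' (by linarith [pi_pos]) (by linarith [pi_pos]) (by rw [s2, h3])
      (by rw [c2, h4])
  have t1 := tau_of_half h e1
  have t2 := tau_of_threehalf h' e2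
  have := plane_sq hr hs
  rw [t1, t2, fN_a, fN_b] at this
  norm_num at this

theorem K2 {a b a' b' : ℝ} (h : ft a b < 9) (h' : ft a' b' < 9)
    (e0 : eP a b 0 = -eP a' b' 0) (e1 : eP a b 1 = -eP a' b' 1) (e2 : eP a b 2 = -eP a' b' 2)
    (e3 : eP a b 3 = eP a' b' 3) : False := by
  have r0 := eP_rad a b
  have r0' := eP_rad a' b'
  rw [e0, e1, e2] at r0
  have hr : fr a b = fr a' b' := fr_eq h h' (by rw [← r0, ← r0']; ring)
  have hs : fs a b = fs a' b' := by rw [← eP_3, ← eP_3, e3]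
  have hrp := (fr_bd h').1
  rw [eP_0, eP_0, hr, neg_inj, ← mul_neg] at e0
  rw [eP_1, eP_1, hr, mul_assoc, mul_assoc, ← mul_neg] at e1
  rw [eP_2, eP_2, hr, mul_assoc, mul_assoc, ← mul_neg] at e2
  have hne : fr a' b' ≠ 0 := by linarith
  replace e0 := mul_left_cancel₀ hne e0
  replace e1 := mul_left_cancel₀ hne e1
  replace e2 := mul_left_cancel₀ hne e2
  have p1 := fA_pos h
  have p1' := fA_pos h'
  have p2 := fA_le (ft a b)
  have p2' := fA_le (ft a' b')
  have hsq : cos (fA (ft a b)) ^ 2 = cos (fA (ft a' b')) ^ 2 := by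
    have := sin_sq_add_cos_sq (fA (ft a b))
    have := sin_sq_add_cos_sq (fA (ft a' b'))
    rw [e0] at *
    linarith
  rcases eq_or_ne (cos (fA (ft a' b'))) 0 with hz | hz
  · -- both vertical
    rw [hz] at hsq
    have hz1 : cos (fA (ft a b)) = 0 := pow_eq_zero_iff (two_ne_zero) |>.1 (by linarith)
    have q := sin_sq_add_cos_sq (fA (ft a b))
    rw [hz1] at q
    have : sin (fA (ft a b)) ^ 2 = 1 ^ 2 := by linarith
    rcases eq_or_eq_neg_of_sq_eq_sq _ _ this with g | g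
    · exact K2aux h h' hr hs g (by linarith)
    · exact K2aux h' h hr.symm hs.symm (by linarith) (by linarith)
  · rcases eq_or_eq_neg_of_sq_eq_sq _ _ hsq with hc | hc
    · rw [hc, ← mul_neg] at e1 e2
      replace e1 := mul_left_cancel₀ hz e1
      replace e2 := mul_left_cancel₀ hz e2
      exact dir_pos (fc_nonneg _) (fc_nonneg _) e1 e2
    · rw [hc, neg_mul, neg_inj] at e1 e2
      replace e1 := mul_left_cancel₀ hz e1
      replace e2 := mul_left_cancel₀ hz e2
      have hcc := dir_inj e1 e2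
      rcases ang_opp p1 p2 p1' p2' e0 hc with g | g
      · rw [g, fc_shift (by linarith) p1'] at hcc
        linarith
      · rw [g, fc_shift (by linarith) p1] at hcc
        linarith

theorem K3 {a b : ℝ} (h : ft a b < 9) (e0 : eP a b 0 = 0) (e2 : eP a b 2 = 0) : False := by
  rw [eP_0, neg_eq_zero] at e0
  have hrp := (fr_bd h).1
  have hs : sin (fA (ft a b)) = 0 := by
    rcases mul_eq_zero.1 e0 with g | g
    · linarith
    · exact g
  have hc : cos (fA (ft a b)) ≠ 0 := by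
    intro hc
    have := sin_sq_add_cos_sq (fA (ft a b))
    rw [hs, hc] at this
    norm_num at this
  rw [eP_2] at e2
  have hf : fc (fA (ft a b)) = 0 := by
    rcases mul_eq_zero.1 e2 with g | g
    · rcases mul_eq_zero.1 g with g | g
      · linarith
      · exact absurd g hc
    · rcases div_eq_zero_iff.1 g with g | g
      · unfold fV2 at g; linarith
      · exact absurd g (fVn_pos _).ne'
  unfold fc at hf
  have h1 := st_nonneg (fA (ft a b) - 1 / 4)
  have h2 := st_nonneg (fA (ft a b) - π - 1 / 4)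
  have h3 : ST (fA (ft a b) - 1 / 4) = 0 := by linarith
  have h4 : fA (ft a b) - 1 / 4 ≤ 0 := smoothTransition.zero_iff_nonpos.1 h3
  have h5 : 0 < sin (fA (ft a b)) := sin_pos_of_pos_of_lt_pi (fA_pos h) (by linarith [pi_gt_three])
  linarith

/-! ### evaluation of `eD` -/

theorem rho_e0 (a b : ℝ) : rho (e0 (-a) b) = e0 a b := by
  apply E4_ext <;> simp [rho, e0]

theorem rhp_e0 (a b : ℝ) : rhp (e0 a (-b)) = e0 a b := by
  apply E4_ext <;> simp [rhp, e0]

theorem rho_rhp_e0 (a b : ℝ) : rho (rhp (e0 (-a) (-b))) = e0 a b := by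
  apply E4_ext <;> simp [rho, rhp, e0]

/-- a finger disk meets only one quadrant -/
theorem ft_quad {a b : ℝ} (h : ft a b < 9) :
    9 ≤ ft (-a) b ∧ 9 ≤ ft a (-b) ∧ 9 ≤ ft (-a) (-b) := by
  obtain ⟨h1, h2⟩ := ft_lt h
  rw [abs_lt] at h1 h2
  unfold ft
  refine ⟨?_, ?_, ?_⟩ <;> nlinarith [sq_nonneg (a - 1 / 4), sq_nonneg (b - 1 / 2),
    sq_nonneg (-a - 1 / 4), sq_nonneg (-b - 1 / 2)]

/-- description of the points of the disk -/
theorem eD_cases (h : E2) :
    (eD h = e0 (h 0) (h 1)) ∨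
    ∃ s1 s2 : ℝ, (s1 = 1 ∨ s1 = -1) ∧ (s2 = 1 ∨ s2 = -1) ∧ ft (s1 * h 0) (s2 * h 1) < 9 ∧
      eD h 0 = s1 * s2 * eP (s1 * h 0) (s2 * h 1) 0 ∧
      eD h 1 = s1 * eP (s1 * h 0) (s2 * h 1) 1 ∧
      eD h 2 = s1 * s2 * eP (s1 * h 0) (s2 * h 1) 2 ∧
      eD h 3 = s2 * eP (s1 * h 0) (s2 * h 1) 3 := by
  set a := h 0 with ha
  set b := h 1 with hb
  rcases lt_or_ge (ft a b) 9 with h1 | h1
  · right
    obtain ⟨g1, g2, g3⟩ := ft_quad h1
    have e : eD h = eP a b := by
      unfold eD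
      rw [← ha, ← hb, eP_nine g1, eP_nine g2, eP_nine g3, rho_e0, rhp_e0, rho_rhp_e0]
      abel
    refine ⟨1, 1, Or.inl rfl, Or.inl rfl, by simpa using h1, ?_, ?_, ?_, ?_⟩ <;> simp [e]
  rcases lt_or_ge (ft (-a) b) 9 with h2 | h2
  · right
    obtain ⟨g1, g2, g3⟩ := ft_quad h2
    rw [neg_neg] at g1 g3
    have e : eD h = rho (eP (-a) b) := by
      unfold eD
      rw [← ha, ← hb, eP_nine g1, eP_nine g2, eP_nine g3, rhp_e0, rho_rhp_e0]
      abel
    refine ⟨-1, 1, Or.inr rfl, Or.inl rfl, by simpa using h2, ?_, ?_, ?_, ?_⟩ <;> simp [e, rho]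
  rcases lt_or_ge (ft a (-b)) 9 with h3 | h3
  · right
    obtain ⟨g1, g2, g3⟩ := ft_quad h3
    rw [neg_neg] at g2 g3
    have e : eD h = rhp (eP a (-b)) := by
      unfold eD
      rw [← ha, ← hb, eP_nine g1, eP_nine g2, eP_nine g3, rho_e0, rho_rhp_e0]
      abel
    refine ⟨1, -1, Or.inl rfl, Or.inr rfl, by simpa using h3, ?_, ?_, ?_, ?_⟩ <;> simp [e, rhp]
  rcases lt_or_ge (ft (-a) (-b)) 9 with h4 | h4
  · right
    have e : eD h = rho (rhp (eP (-a) (-b))) := by
      unfold eD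
      rw [← ha, ← hb, eP_nine h1, eP_nine h2, eP_nine h3, rho_e0, rhp_e0]
      abel
    refine ⟨-1, -1, Or.inr rfl, Or.inr rfl, by simpa using h4, ?_, ?_, ?_, ?_⟩ <;>
      simp [e, rho, rhp]
  · left
    unfold eD
    rw [← ha, ← hb, eP_nine h1, eP_nine h2, eP_nine h3, eP_nine h4, rho_e0, rhp_e0, rho_rhp_e0]
    abel

theorem E2_ext {p q : E2} (h0 : p 0 = q 0) (h1 : p 1 = q 1) : p = q := by
  ext i
  fin_cases i
  · exact h0
  · exact h1

theorem pm_cancel {s x y : ℝ} (hs : s = 1 ∨ s = -1) (h : s * x = s * y) : x = y := by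
  rcases hs with rfl | rfl <;> linarith

theorem mixed {h h' : E2} (e : eD h = eD h') (h1 : eD h = e0 (h 0) (h 1))
    {s1 s2 : ℝ} (hs1 : s1 = 1 ∨ s1 = -1) (hs2 : s2 = 1 ∨ s2 = -1)
    (ht : ft (s1 * h' 0) (s2 * h' 1) < 9)
    (c0 : eD h' 0 = s1 * s2 * eP (s1 * h' 0) (s2 * h' 1) 0)
    (c2 : eD h' 2 = s1 * s2 * eP (s1 * h' 0) (s2 * h' 1) 2) : False := by
  rw [← e, h1] at c0 c2
  have z0 : e0 (h 0) (h 1) 0 = 0 := by simp [e0]
  have z2 : e0 (h 0) (h 1) 2 = 0 := by simp [e0]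
  rw [z0] at c0
  rw [z2] at c2
  apply K3 ht
  · rcases hs1 with rfl | rfl <;> rcases hs2 with rfl | rfl <;> linarith
  · rcases hs1 with rfl | rfl <;> rcases hs2 with rfl | rfl <;> linarith

theorem eD_inj : Function.Injective eD := by
  intro h h' e
  rcases eD_cases h with h1 | ⟨s1, s2, hs1, hs2, ht, c0, c1, c2, c3⟩
  · rcases eD_cases h' with h2 | ⟨s1, s2, hs1, hs2, ht, c0, c1, c2, c3⟩
    · rw [h1, h2] at e
      apply E2_ext
      · have : e0 (h 0) (h 1) 1 = e0 (h' 0) (h' 1) 1 := by rw [e]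
        simpa [e0] using this
      · have : e0 (h 0) (h 1) 3 = e0 (h' 0) (h' 1) 3 := by rw [e]
        simpa [e0] using this
    · exact (mixed e h1 hs1 hs2 ht c0 c2).elim
  · rcases eD_cases h' with h2 | ⟨t1, t2, ht1, ht2, ht', d0, d1, d2, d3⟩
    · exact (mixed e.symm h2 hs1 hs2 ht c0 c2).elim
    · have q := fs_bd ht
      have q' := fs_bd ht'
      rw [e, d3, eP_3, eP_3] at c3
      have h22 : t2 = s2 := by
        rcases hs2 with rfl | rfl <;> rcases ht2 with rfl | rfl <;> first | rfl | linarith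
      subst h22
      rw [e, d0] at c0
      rw [e, d1] at c1
      rw [e, d2] at c2
      have c3' := pm_cancel hs2 c3
      have hh : t1 = s1 ∨ t1 = -s1 := by
        rcases hs1 with rfl | rfl <;> rcases ht1 with rfl | rfl <;> simp
      rcases hh with rfl | rfl
      · have := K1 ht ht' (E4_ext (by
            rcases ht1 with rfl | rfl <;> rcases hs2 with rfl | rfl <;> linarith) (by
            rcases ht1 with rfl | rfl <;> linarith) (by
            rcases ht1 with rfl | rfl <;> rcases hs2 with rfl | rfl <;> linarith) (by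
            rw [eP_3, eP_3, c3']))
        exact E2_ext (pm_cancel ht1 this.1) (pm_cancel hs2 this.2)
      · exfalso
        refine K2 ht ht' ?_ ?_ ?_ ?_
        · rcases hs1 with rfl | rfl <;> rcases hs2 with rfl | rfl <;> linarith
        · rcases hs1 with rfl | rfl <;> linarith
        · rcases hs1 with rfl | rfl <;> rcases hs2 with rfl | rfl <;> linarith
        · rw [eP_3, eP_3, c3']

theorem norm_sq4 (p : E4) : ‖p‖ ^ 2 = p 0 ^ 2 + p 1 ^ 2 + p 2 ^ 2 + p 3 ^ 2 := by
  rw [EuclideanSpace.norm_sq_eq, Fin.sum_univ_four]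
  simp

theorem norm_sq2 (p : E2) : ‖p‖ ^ 2 = p 0 ^ 2 + p 1 ^ 2 := by
  rw [EuclideanSpace.norm_sq_eq, Fin.sum_univ_two]
  simp

theorem eD_norm (h : E2) (hh : ‖h‖ ^ 2 < 4 / 5) : ‖eD h‖ ^ 2 < 4 / 5 := by
  rcases eD_cases h with h1 | ⟨s1, s2, hs1, hs2, ht, c0, c1, c2, c3⟩
  · rw [h1, norm_sq4]
    rw [norm_sq2] at hh
    simpa [e0] using hh
  · rw [norm_sq4, c0, c1, c2, c3]
    have e1 : s1 ^ 2 = 1 := by rcases hs1 with rfl | rfl <;> norm_num
    have e2 : s2 ^ 2 = 1 := by rcases hs2 with rfl | rfl <;> norm_num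
    have r := eP_rad (s1 * h 0) (s2 * h 1)
    have q1 := fr_bd ht
    have q2 := fs_bd ht
    have : (s1 * s2 * eP (s1 * h 0) (s2 * h 1) 0) ^ 2 + (s1 * eP (s1 * h 0) (s2 * h 1) 1) ^ 2 +
        (s1 * s2 * eP (s1 * h 0) (s2 * h 1) 2) ^ 2 + (s2 * eP (s1 * h 0) (s2 * h 1) 3) ^ 2 =
        fr (s1 * h 0) (s2 * h 1) ^ 2 + fs (s1 * h 0) (s2 * h 1) ^ 2 := by
      rw [mul_pow, mul_pow, mul_pow, mul_pow, mul_pow, mul_pow, e1, e2, ← r, eP_3]
      ring
    rw [this]
    nlinarith

end D2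

/-- Module DISK2. -/
theorem disk2 : S_DISK2 := ⟨D2.eD_inj, D2.eD_norm⟩

end EQD
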